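import Pool.Agent.Helper13.LT.Defs

/-!
# Kite complexes: the piecewise Euclidean metric and the link condition

Each kite consists of two Euclidean triangles (chamber, panel, residue) with the angles 60 degrees
at the chamber, 90 degrees at the panel and 30 degrees at the residue.
-/

set_option autoImplicit false

namespace Pool.Agent.Helper83.LT

open Relation Pool.Agent.Helper3.FJ Pool.Agent.Helper13.LT

/-- The lengths of the edges: 1 between chambers and panels, `√3` between panels and residues and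
2 between chambers and residues. -/
noncomputable def len {V : Type} (k : V → ℕ) (u v : V) : ℝ :=
  if k u + k v = 1 then 1 else if k u + k v = 3 then Real.sqrt 3 else 2

section

variable {V : Type} {X : Cpx V} {k : V → ℕ}

theorem len_symm (u v : V) : len k u v = len k v u := by
  unfold len
  rw [add_comm]

theorem sqrt3_pos : 0 < Real.sqrt 3 := Real.sqrt_pos.2 (by norm_num)

theorem sqrt3_sq : Real.sqrt 3 ^ 2 = 3 := Real.sq_sqrt (by norm_num)

theorem one_lt_sqrt3 : 1 < Real.sqrt 3 := by
  have := sqrt3_sq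
  have := sqrt3_pos
  nlinarith

theorem sqrt3_lt : Real.sqrt 3 < 2 := by
  have := sqrt3_sq
  have := sqrt3_pos
  nlinarith

/-- The ranks of the vertices of a triangle. -/
theorem tri_ranks (hK : Kt X k) {u v w : V} (h : X.tri u v w) :
    k u ≠ k v ∧ k v ≠ k w ∧ k w ≠ k u ∧ k u ≤ 2 ∧ k v ≤ 2 ∧ k w ≤ 2 := by
  have h1 := X.tri_rot _ _ _ h
  have h2 := X.tri_rot _ _ _ h1
  exact ⟨hK.ne _ _ (X.tri_adj _ _ _ h), hK.ne _ _ (X.tri_adj _ _ _ h1),
    hK.ne _ _ (X.tri_adj _ _ _ h2), hK.le _, hK.le _, hK.le _⟩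

theorem metric (hK : Kt X k) : X.Metric (len k) := by
  refine ⟨len_symm, fun u v _ => ?_, fun u v w h => ?_⟩
  · unfold len
    split_ifs
    · norm_num
    · exact sqrt3_pos
    · norm_num
  · obtain ⟨h1, h2, h3, h4, h5, h6⟩ := tri_ranks hK h
    have a := one_lt_sqrt3
    have b := sqrt3_lt
    unfold len
    generalize k u = x at *
    generalize k v = y at *
    generalize k w = z at *
    interval_cases x <;> interval_cases y <;> interval_cases z <;>
      first | exact absurd rfl h1 | exact absurd rfl h2 | exact absurd rfl h3 |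
        (norm_num <;> linarith)

/-- The angle at a chamber. -/
theorem ang0 (hK : Kt X k) {v u w : V} (h : X.tri v u w) (hv : k v = 0) :
    Cpx.ang (len k) v u w = Real.pi / 3 := by
  obtain ⟨h1, h2, h3, h4, h5, h6⟩ := tri_ranks hK h
  rw [← Real.arccos_cos (x := Real.pi / 3) (by positivity) (by linarith [Real.pi_pos]),
    Real.cos_pi_div_three]
  unfold Cpx.ang len
  congr 1
  have a := sqrt3_sq
  generalize k v = x at *
  generalize k u = y at *
  generalize k w = z at *
  subst hv
  interval_cases y <;> interval_cases z <;>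
      first | exact absurd rfl h1 | exact absurd rfl h2 | exact absurd rfl h3 |
        (norm_num)

/-- The angle at a panel. -/
theorem ang1 (hK : Kt X k) {v u w : V} (h : X.tri v u w) (hv : k v = 1) :
    Cpx.ang (len k) v u w = Real.pi / 2 := by
  obtain ⟨h1, h2, h3, h4, h5, h6⟩ := tri_ranks hK h
  rw [← Real.arccos_cos (x := Real.pi / 2) (by positivity) (by linarith [Real.pi_pos]),
    Real.cos_pi_div_two]
  unfold Cpx.ang len
  congr 1
  have a := sqrt3_sq
  generalize k v = x at *
  generalize k u = y at *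
  generalize k w = z at *
  subst hv
  interval_cases y <;> interval_cases z <;>
      first | exact absurd rfl h1 | exact absurd rfl h2 | exact absurd rfl h3 |
        (norm_num)

/-- The angle at a residue. -/
theorem ang2 (hK : Kt X k) {v u w : V} (h : X.tri v u w) (hv : k v = 2) :
    Cpx.ang (len k) v u w = Real.pi / 6 := by
  obtain ⟨h1, h2, h3, h4, h5, h6⟩ := tri_ranks hK h
  rw [← Real.arccos_cos (x := Real.pi / 6) (by positivity) (by linarith [Real.pi_pos]),
    Real.cos_pi_div_six]
  unfold Cpx.ang len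
  congr 1
  have a := sqrt3_sq
  have b := sqrt3_pos
  have d : (6 : ℝ) / (4 * Real.sqrt 3) = Real.sqrt 3 / 2 := by
    rw [div_eq_div_iff (by positivity) (by norm_num)]
    nlinarith
  have c : (6 : ℝ) / (2 * Real.sqrt 3 * 2) = Real.sqrt 3 / 2 := by
    rw [div_eq_div_iff (by positivity) (by norm_num)]
    nlinarith
  generalize k v = x at *
  generalize k u = y at *
  generalize k w = z at *
  subst hv
  interval_cases y <;> interval_cases z <;>
      first | exact absurd rfl h1 | exact absurd rfl h2 | exact absurd rfl h3 |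
        (norm_num [a, c, d])

/-! ### Circuits in the links -/

/-- The vertices of a circuit in a link alternate between two ranks, hence its length is even. -/
theorem even_of_circuit (hK : Kt X k) {v : V} {n : ℕ} (u : ZMod (n + 3) → V)
    (ht : ∀ i, X.tri v (u i) (u (i + 1))) : Even (n + 3) := by
  have h2 : ∀ j : ℕ, (k (u (j : ZMod (n + 3))) = k (u 0) ↔ Even j) := by
    intro j
    induction j with
    | zero => simp
    | succ j ih =>
      have e1 := tri_ranks hK (ht (j : ZMod (n + 3)))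
      have e2 := tri_ranks hK (ht 0)
      have e3 : k (u ((j + 1 : ℕ) : ZMod (n + 3))) = k (u ((j : ZMod (n + 3)) + 1)) := by
        push_cast
        rfl
      rw [e3, Nat.even_add_one, ← ih]
      constructor
      · intro h h'
        exact e1.2.1 (h'.trans h.symm)
      · intro h
        obtain ⟨a1, a2, a3, a4, a5, a6⟩ := e1
        obtain ⟨b1, b2, b3, b4, b5, b6⟩ := e2
        omega
  have h3 := (h2 (n + 3)).1 (by rw [ZMod.natCast_self])
  exact h3

/-- A circuit in the link of a vertex which is not a panel can be shifted such that it starts with a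
panel. -/
theorem shift_circuit (hK : Kt X k) {v : V} {n : ℕ} (u : ZMod (n + 3) → V)
    (hu : Function.Injective u) (ht : ∀ i, X.tri v (u i) (u (i + 1))) (hv : k v ≠ 1) :
    ∃ w : ZMod (n + 3) → V, Function.Injective w ∧ (∀ i, X.tri v (w i) (w (i + 1))) ∧
      k (w 0) = 1 := by
  by_cases h : k (u 0) = 1
  · exact ⟨u, hu, ht, h⟩
  · refine ⟨fun i => u (i + 1), fun i j hij => add_right_cancel (hu hij), fun i => ht _, ?_⟩
    obtain ⟨b1, b2, b3, b4, b5, b6⟩ := tri_ranks hK (ht 0)
    show k (u (0 + 1)) = 1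
    omega

/-- Incidences from a triangle. -/
theorem tri_inc {v p x : V} (h : X.tri v p x) (hp : k p = 1) :
    inc X k p v ∧ inc X k p x := by
  have h1 := X.tri_rot _ _ _ h
  exact ⟨⟨hp, X.adj_symm _ _ (X.tri_adj _ _ _ h)⟩, ⟨hp, X.tri_adj _ _ _ h1⟩⟩

theorem tri_inc' {v p x : V} (h : X.tri v x p) (hp : k p = 1) :
    inc X k p v ∧ inc X k p x := by
  have h1 := X.tri_rot _ _ _ h
  have h2 := X.tri_rot _ _ _ h1
  exact ⟨⟨hp, X.tri_adj _ _ _ h2⟩, ⟨hp, X.adj_symm _ _ (X.tri_adj _ _ _ h1)⟩⟩

theorem kap_false {v : V} (h : k v = 0) : kap k v = false := by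
  simp [kap, h]

theorem kap_true {v : V} (h : k v = 2) : kap k v = true := by
  simp [kap, h]

/-- There are no circuits of length four in the links of the chambers and of the residues. -/
theorem no4 (hK : Kt X k) {v : V} (u : ZMod (1 + 3) → V) (hu : Function.Injective u)
    (ht : ∀ i, X.tri v (u i) (u (i + 1))) (hv : k v ≠ 1) : False := by
  obtain ⟨w, hw, hw1, hw2⟩ := shift_circuit hK u hu ht hv
  have t0 := hw1 0
  have t1 := hw1 1
  have t2 := hw1 2
  have t3 := hw1 3
  have e0 : (0 : ZMod (1 + 3)) + 1 = 1 := by decide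
  have e1 : (1 : ZMod (1 + 3)) + 1 = 2 := by decide
  have e2 : (2 : ZMod (1 + 3)) + 1 = 3 := by decide
  have e3 : (3 : ZMod (1 + 3)) + 1 = 0 := by decide
  rw [e0] at t0
  rw [e1] at t1
  rw [e2] at t2
  rw [e3] at t3
  have n02 : w 0 ≠ w 2 := fun h => absurd (hw h) (by decide)
  have n13 : w 1 ≠ w 3 := fun h => absurd (hw h) (by decide)
  have r0 := tri_ranks hK t0
  have r1 := tri_ranks hK t1
  have r2 := tri_ranks hK t2
  have k2 : k (w 2) = 1 := by omega
  have hk1 : kap k (w 1) ≠ kap k v := by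
    simp only [kap, ne_eq, decide_eq_decide]
    omega
  have hk3 : kap k (w 3) ≠ kap k v := by
    simp only [kap, ne_eq, decide_eq_decide]
    omega
  exact n13 (hK.kc.one (w 0) (w 2) v (w 1) (w 3) n02 (tri_inc t0 hw2).1 (tri_inc t2 k2).1 hk1 hk3
    (tri_inc t0 hw2).2 (tri_inc' t1 k2).2 (tri_inc' t3 hw2).2 (tri_inc t2 k2).2)

/-- There are no circuits of length six in the links of the residues. -/
theorem no6 (hK : Kt X k) {v : V} (u : ZMod (3 + 3) → V) (hu : Function.Injective u)
    (ht : ∀ i, X.tri v (u i) (u (i + 1))) (hv : k v = 2) : False := by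
  obtain ⟨w, hw, hw1, hw2⟩ := shift_circuit hK u hu ht (by omega)
  have t0 := hw1 0
  have t1 := hw1 1
  have t2 := hw1 2
  have t3 := hw1 3
  have t4 := hw1 4
  have t5 := hw1 5
  have e0 : (0 : ZMod (3 + 3)) + 1 = 1 := by decide
  have e1 : (1 : ZMod (3 + 3)) + 1 = 2 := by decide
  have e2 : (2 : ZMod (3 + 3)) + 1 = 3 := by decide
  have e3 : (3 : ZMod (3 + 3)) + 1 = 4 := by decide
  have e4 : (4 : ZMod (3 + 3)) + 1 = 5 := by decide
  have e5 : (5 : ZMod (3 + 3)) + 1 = 0 := by decide
  rw [e0] at t0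
  rw [e1] at t1
  rw [e2] at t2
  rw [e3] at t3
  rw [e4] at t4
  rw [e5] at t5
  have n02 : w 0 ≠ w 2 := fun h => absurd (hw h) (by decide)
  have n24 : w 2 ≠ w 4 := fun h => absurd (hw h) (by decide)
  have n40 : w 4 ≠ w 0 := fun h => absurd (hw h) (by decide)
  have r0 := tri_ranks hK t0
  have r1 := tri_ranks hK t1
  have r2 := tri_ranks hK t2
  have r3 := tri_ranks hK t3
  have r4 := tri_ranks hK t4
  have k1 : k (w 1) = 0 := by omega
  have k2 : k (w 2) = 1 := by omega
  have k3 : k (w 3) = 0 := by omega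
  have k4 : k (w 4) = 1 := by omega
  have k5 : k (w 5) = 0 := by omega
  exact hK.kc.n3 v (w 0) (w 2) (w 4) (w 1) (w 3) (w 5) (kap_true hv) (kap_false k1) (kap_false k3)
    (kap_false k5) (tri_inc t0 hw2).1 (tri_inc t2 k2).1 (tri_inc t4 k4).1 (tri_inc t0 hw2).2
    (tri_inc' t1 k2).2 (tri_inc t2 k2).2 (tri_inc' t3 k4).2 (tri_inc t4 k4).2 (tri_inc' t5 hw2).2
    n02 n24 n40

/-- There are no circuits of length eight in the links of the residues. -/
theorem no8 (hK : Kt X k) {v : V} (u : ZMod (5 + 3) → V) (hu : Function.Injective u)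
    (ht : ∀ i, X.tri v (u i) (u (i + 1))) (hv : k v = 2) : False := by
  obtain ⟨w, hw, hw1, hw2⟩ := shift_circuit hK u hu ht (by omega)
  have t0 := hw1 0
  have t1 := hw1 1
  have t2 := hw1 2
  have t3 := hw1 3
  have t4 := hw1 4
  have t5 := hw1 5
  have t6 := hw1 6
  have t7 := hw1 7
  have e0 : (0 : ZMod (5 + 3)) + 1 = 1 := by decide
  have e1 : (1 : ZMod (5 + 3)) + 1 = 2 := by decide
  have e2 : (2 : ZMod (5 + 3)) + 1 = 3 := by decide
  have e3 : (3 : ZMod (5 + 3)) + 1 = 4 := by decide
  have e4 : (4 : ZMod (5 + 3)) + 1 = 5 := by decide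
  have e5 : (5 : ZMod (5 + 3)) + 1 = 6 := by decide
  have e6 : (6 : ZMod (5 + 3)) + 1 = 7 := by decide
  have e7 : (7 : ZMod (5 + 3)) + 1 = 0 := by decide
  rw [e0] at t0
  rw [e1] at t1
  rw [e2] at t2
  rw [e3] at t3
  rw [e4] at t4
  rw [e5] at t5
  rw [e6] at t6
  rw [e7] at t7
  have n02 : w 0 ≠ w 2 := fun h => absurd (hw h) (by decide)
  have n24 : w 2 ≠ w 4 := fun h => absurd (hw h) (by decide)
  have n46 : w 4 ≠ w 6 := fun h => absurd (hw h) (by decide)
  have n60 : w 6 ≠ w 0 := fun h => absurd (hw h) (by decide)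
  have n04 : w 0 ≠ w 4 := fun h => absurd (hw h) (by decide)
  have n26 : w 2 ≠ w 6 := fun h => absurd (hw h) (by decide)
  have r0 := tri_ranks hK t0
  have r1 := tri_ranks hK t1
  have r2 := tri_ranks hK t2
  have r3 := tri_ranks hK t3
  have r4 := tri_ranks hK t4
  have r5 := tri_ranks hK t5
  have r6 := tri_ranks hK t6
  have k1 : k (w 1) = 0 := by omega
  have k2 : k (w 2) = 1 := by omega
  have k3 : k (w 3) = 0 := by omega
  have k4 : k (w 4) = 1 := by omega
  have k5 : k (w 5) = 0 := by omega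
  have k6 : k (w 6) = 1 := by omega
  have k7 : k (w 7) = 0 := by omega
  rcases hK.kc.n4 v (w 0) (w 2) (w 4) (w 6) (w 1) (w 3) (w 5) (w 7) (kap_true hv) (kap_false k1)
    (kap_false k3) (kap_false k5) (kap_false k7) (tri_inc t0 hw2).1 (tri_inc t2 k2).1
    (tri_inc t4 k4).1 (tri_inc t6 k6).1 (tri_inc t0 hw2).2 (tri_inc' t1 k2).2 (tri_inc t2 k2).2
    (tri_inc' t3 k4).2 (tri_inc t4 k4).2 (tri_inc' t5 k6).2 (tri_inc t6 k6).2 (tri_inc' t7 hw2).2
    n02 n24 n46 n60 with h | h
  · exact n04 h
  · exact n26 h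

/-- There are no circuits of length ten in the links of the residues. -/
theorem no10 (hK : Kt X k) {v : V} (u : ZMod (7 + 3) → V) (hu : Function.Injective u)
    (ht : ∀ i, X.tri v (u i) (u (i + 1))) (hv : k v = 2) : False := by
  obtain ⟨w, hw, hw1, hw2⟩ := shift_circuit hK u hu ht (by omega)
  have t0 := hw1 0
  have t1 := hw1 1
  have t2 := hw1 2
  have t3 := hw1 3
  have t4 := hw1 4
  have t5 := hw1 5
  have t6 := hw1 6
  have t7 := hw1 7
  have t8 := hw1 8
  have t9 := hw1 9
  have e0 : (0 : ZMod (7 + 3)) + 1 = 1 := by decide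
  have e1 : (1 : ZMod (7 + 3)) + 1 = 2 := by decide
  have e2 : (2 : ZMod (7 + 3)) + 1 = 3 := by decide
  have e3 : (3 : ZMod (7 + 3)) + 1 = 4 := by decide
  have e4 : (4 : ZMod (7 + 3)) + 1 = 5 := by decide
  have e5 : (5 : ZMod (7 + 3)) + 1 = 6 := by decide
  have e6 : (6 : ZMod (7 + 3)) + 1 = 7 := by decide
  have e7 : (7 : ZMod (7 + 3)) + 1 = 8 := by decide
  have e8 : (8 : ZMod (7 + 3)) + 1 = 9 := by decide
  have e9 : (9 : ZMod (7 + 3)) + 1 = 0 := by decide
  rw [e0] at t0
  rw [e1] at t1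
  rw [e2] at t2
  rw [e3] at t3
  rw [e4] at t4
  rw [e5] at t5
  rw [e6] at t6
  rw [e7] at t7
  rw [e8] at t8
  rw [e9] at t9
  have n02 : w 0 ≠ w 2 := fun h => absurd (hw h) (by decide)
  have n24 : w 2 ≠ w 4 := fun h => absurd (hw h) (by decide)
  have n46 : w 4 ≠ w 6 := fun h => absurd (hw h) (by decide)
  have n68 : w 6 ≠ w 8 := fun h => absurd (hw h) (by decide)
  have n80 : w 8 ≠ w 0 := fun h => absurd (hw h) (by decide)
  have r0 := tri_ranks hK t0
  have r1 := tri_ranks hK t1
  have r2 := tri_ranks hK t2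
  have r3 := tri_ranks hK t3
  have r4 := tri_ranks hK t4
  have r5 := tri_ranks hK t5
  have r6 := tri_ranks hK t6
  have r7 := tri_ranks hK t7
  have r8 := tri_ranks hK t8
  have k1 : k (w 1) = 0 := by omega
  have k2 : k (w 2) = 1 := by omega
  have k3 : k (w 3) = 0 := by omega
  have k4 : k (w 4) = 1 := by omega
  have k5 : k (w 5) = 0 := by omega
  have k6 : k (w 6) = 1 := by omega
  have k7 : k (w 7) = 0 := by omega
  have k8 : k (w 8) = 1 := by omega
  have k9 : k (w 9) = 0 := by omega
  exact hK.kc.n5 v (w 0) (w 2) (w 4) (w 6) (w 8) (w 1) (w 3) (w 5) (w 7) (w 9) (kap_true hv)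
    (kap_false k1) (kap_false k3) (kap_false k5) (kap_false k7) (kap_false k9)
    (tri_inc t0 hw2).1 (tri_inc t2 k2).1 (tri_inc t4 k4).1 (tri_inc t6 k6).1 (tri_inc t8 k8).1
    (tri_inc t0 hw2).2 (tri_inc' t1 k2).2 (tri_inc t2 k2).2
    (tri_inc' t3 k4).2 (tri_inc t4 k4).2 (tri_inc' t5 k6).2 (tri_inc t6 k6).2 (tri_inc' t7 k8).2
    (tri_inc t8 k8).2 (tri_inc' t9 hw2).2 n02 n24 n46 n68 n80

theorem linkCond (hK : Kt X k) : X.LinkCond (len k) := by
  intro v n u hu ht
  have hev := even_of_circuit hK u ht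
  have hn1 : n ≠ 0 := by
    rintro rfl
    exact absurd hev (by decide)
  have hn2 : n ≠ 2 := by
    rintro rfl
    exact absurd hev (by decide)
  have hpi := Real.pi_pos
  have hle := hK.le v
  have hcase : k v = 0 ∨ k v = 1 ∨ k v = 2 := by omega
  have hsum : ∀ a : ℝ, (∀ i, Cpx.ang (len k) v (u i) (u (i + 1)) = a) →
      ∑ i, Cpx.ang (len k) v (u i) (u (i + 1)) = ((n : ℝ) + 3) * a := by
    intro a ha
    rw [Finset.sum_congr rfl (fun i _ => ha i), Finset.sum_const, Finset.card_univ, ZMod.card,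
      nsmul_eq_mul]
    push_cast
    ring
  rcases hcase with hv | hv | hv
  · rw [hsum _ fun i => ang0 hK (ht i) hv]
    have h3 : 3 ≤ n := by
      by_contra hcon
      have : n = 1 := by omega
      subst this
      exact no4 hK u hu ht (by omega)
    have h3' : (3 : ℝ) ≤ n := by exact_mod_cast h3
    nlinarith
  · rw [hsum _ fun i => ang1 hK (ht i) hv]
    have h3 : 1 ≤ n := by omega
    have h3' : (1 : ℝ) ≤ n := by exact_mod_cast h3
    nlinarith
  · rw [hsum _ fun i => ang2 hK (ht i) hv]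
    have h3 : 9 ≤ n := by
      by_contra hcon
      have h1 : n ≠ 1 := by
        rintro rfl
        exact no4 hK u hu ht (by omega)
      have h2 : n ≠ 3 := by
        rintro rfl
        exact no6 hK u hu ht hv
      have h4 : n ≠ 5 := by
        rintro rfl
        exact no8 hK u hu ht hv
      have h5 : n ≠ 7 := by
        rintro rfl
        exact no10 hK u hu ht hv
      have h6 : n = 0 ∨ n = 1 ∨ n = 2 ∨ n = 3 ∨ n = 4 ∨ n = 5 ∨ n = 6 ∨ n = 7 ∨ n = 8 := by omega
      rcases h6 with h | h | h | h | h | h | h | h | h <;> subst h <;>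
        first | exact hn1 rfl | exact h1 rfl | exact hn2 rfl | exact h2 rfl | exact h4 rfl |
          exact h5 rfl | exact absurd hev (by decide)
    have h3' : (9 : ℝ) ≤ n := by exact_mod_cast h3
    nlinarith

theorem len_smul {G : Type} [Group G] [MulAction G V] (h : ∀ (g : G) v, k (g • v) = k v) (g : G)
    (u v : V) : len k (g • u) (g • v) = len k u v := by
  unfold len
  rw [h, h]

/-- Groups acting with finite stabilizers on simply connected kite complexes. -/
theorem properK {C : ∀ (G : Type) [Group G], Prop} (hC : CatClass C) {G : Type} [Group G]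
    [MulAction G V] (hX : X.SimplyConn) (hK : Kt X k) (hA : ActsK G X k)
    (hst : ∀ v : V, Finite (MulAction.stabilizer G v)) : C G :=
  Cpx.proper hC hX (metric hK) (linkCond hK) hA.acts (len_smul hA.inv) hst

end

end Pool.Agent.Helper83.LT
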